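import Mathlib

/-! Project LG (MP_c307ca_nt): the inequality of Lang for almost all integer polynomials. -/

open Filter Topology

namespace Pool.Agent.H812R4.LG

/-- the value at `x` of the polynomial with coefficients `a` -/
noncomputable def pval {n : ℕ} (a : Fin (n + 1) → ℤ) (x : ℝ) : ℝ := ∑ i, (a i : ℝ) * x ^ (i : ℕ)

/-- integer vectors with entries at most `H` in absolute value -/
def box (n H : ℕ) : Set (Fin (n + 1) → ℤ) := {a | ∀ i, |a i| ≤ (H : ℤ)}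

/-- `a` has a real root in `[-R,R]` very close to a reduced fraction of denominator `q` -/
def near {n : ℕ} (a : Fin (n + 1) → ℤ) (R ε : ℝ) (q : ℕ) : Prop :=
  ∃ x : ℝ, |x| ≤ R ∧ pval a x = 0 ∧ ∃ p : ℤ, IsCoprime p (q : ℤ) ∧
    |x - p / q| ≤ 1 / ((q : ℝ) ^ 2 * Real.log q ^ (1 + ε))

/-- A: a root near `p/q` makes the value at `p/q` small -/
def S_A : Prop := ∀ (n H : ℕ) (R : ℝ), 1 ≤ R → ∀ a ∈ box n H, ∀ x y : ℝ, |x| ≤ R → |x - y| ≤ 1 →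
  pval a x = 0 → |pval a y| ≤ H * ((n + 1) ^ 2 * (R + 1) ^ n) * |x - y|

/-- B: counting the vectors whose polynomial is small at `p/q` -/
def S_B : Prop := ∀ (n H q : ℕ) (p : ℤ) (t : ℝ), 1 ≤ n → 1 ≤ q → q ≤ H → IsCoprime p (q : ℤ) → 0 ≤ t →
  {a ∈ box n H | |pval a (p / q)| ≤ t}.Finite ∧
  ({a ∈ box n H | |pval a (p / q)| ≤ t}.ncard : ℝ)
    ≤ (2 * t * q + 1) * (3 * H / q) * (2 * H + 1) ^ (n - 1)

/-- C: the sum over the denominators -/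
def S_C : Prop := ∀ ε : ℝ, 0 < ε → ∃ C : ℝ, 0 < C ∧ ∀ P Q : ℕ, 2 ≤ P → P ≤ Q →
  ∑ q ∈ Finset.Icc P Q, 1 / ((q : ℝ) * Real.log q ^ (1 + ε)) ≤ C * Real.log P ^ (-ε)

/-- D: one denominator -/
def S_D : Prop := ∀ (n : ℕ) (R ε : ℝ), 1 ≤ n → 1 ≤ R → 0 < ε → ∃ C : ℝ, 0 < C ∧ ∀ H q : ℕ,
  2 ≤ q → q ≤ H → {a ∈ box n H | near a R ε q}.Finite ∧
  ({a ∈ box n H | near a R ε q}.ncard : ℝ)
    ≤ C * (H * (1 / ((q : ℝ) * Real.log q ^ (1 + ε))) + 1) * H * (2 * H + 1) ^ (n - 1)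

/-- the theorem -/
def S_M : Prop := ∀ (n : ℕ) (R ε : ℝ), 1 ≤ n → 1 ≤ R → 0 < ε → ∃ C : ℝ, 0 < C ∧ ∀ H P Q : ℕ,
  2 ≤ P → P ≤ Q → Q ≤ H →
  ({a ∈ box n H | ∃ q : ℕ, P ≤ q ∧ q ≤ Q ∧ near a R ε q}.ncard : ℝ)
    ≤ C * (Real.log P ^ (-ε) + Q / H) * (2 * H + 1) ^ (n + 1)

end Pool.Agent.H812R4.LG
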