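import Pool.Agent.H812R4.LG.Defs

/-! Task A: a root near `y` makes the value at `y` small. -/

namespace Pool.Agent.H812R4.LG

theorem A_term (n : ℕ) (R : ℝ) (hR : 1 ≤ R) (x y : ℝ) (hx : |x| ≤ R) (hxy : |x - y| ≤ 1) (i : ℕ)
    (hi : i ≤ n) : |y ^ i - x ^ i| ≤ |x - y| * ((n + 1) * (R + 1) ^ n) := by
  have h1 := abs_pow_sub_pow_le y x i
  have hy : |y| ≤ R + 1 := by
    have h2 : |y| ≤ |x| + |x - y| := by
      have h3 := abs_sub_abs_le_abs_sub y x
      rw [abs_sub_comm y x] at h3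
      linarith
    linarith
  have hm : max |y| |x| ≤ R + 1 := max_le hy (by linarith)
  have hm0 : 0 ≤ max |y| |x| := le_max_of_le_left (abs_nonneg y)
  have h2 : max |y| |x| ^ (i - 1) ≤ (R + 1) ^ n :=
    (pow_le_pow_left₀ hm0 hm _).trans (pow_le_pow_right₀ (by linarith) (by omega))
  have h3 : (i : ℝ) ≤ (n : ℝ) + 1 := by
    have : (i : ℝ) ≤ (n : ℝ) := by exact_mod_cast hi
    linarith
  refine h1.trans ?_
  rw [abs_sub_comm y x, mul_assoc]
  apply mul_le_mul_of_nonneg_left _ (abs_nonneg _)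
  exact mul_le_mul h3 h2 (pow_nonneg hm0 _) (by positivity)

theorem t_A : S_A := by
  intro n H R hR a ha x y hx hxy h0
  have h1 : pval a y = ∑ i : Fin (n + 1), (a i : ℝ) * (y ^ (i : ℕ) - x ^ (i : ℕ)) := by
    have h2 : pval a y = pval a y - pval a x := by rw [h0, sub_zero]
    rw [h2]
    unfold pval
    rw [← Finset.sum_sub_distrib]
    exact Finset.sum_congr rfl fun i _ => by ring
  rw [h1]
  refine (Finset.abs_sum_le_sum_abs _ _).trans ?_
  have h3 : ∀ i ∈ (Finset.univ : Finset (Fin (n + 1))),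
      |(a i : ℝ) * (y ^ (i : ℕ) - x ^ (i : ℕ))| ≤
        (H : ℝ) * (|x - y| * ((n + 1) * (R + 1) ^ n)) := by
    intro i _
    rw [abs_mul]
    have h4 : |(a i : ℝ)| ≤ (H : ℝ) := by
      have := ha i
      exact_mod_cast this
    exact mul_le_mul h4 (A_term n R hR x y hx hxy i (Nat.lt_succ_iff.1 i.2)) (abs_nonneg _)
      (Nat.cast_nonneg H)
  refine (Finset.sum_le_sum h3).trans (le_of_eq ?_)
  rw [Finset.sum_const, Finset.card_univ, Fintype.card_fin, nsmul_eq_mul]
  push_cast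
  ring

end Pool.Agent.H812R4.LG
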