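import Pool.Agent.H812R4.LG.Defs

namespace Pool.Agent.H812R4.LG

open Finset

lemma B_count (A : Finset ℤ) (q : ℕ) (hq : 1 ≤ q) (x L : ℝ) (hL : 0 ≤ L)
    (h : ∀ z ∈ A, x ≤ (z : ℝ) ∧ (z : ℝ) ≤ x + L)
    (hmod : ∀ z ∈ A, ∀ w ∈ A, (q : ℤ) ∣ z - w) : (A.card : ℝ) ≤ L / q + 1 := by
  have hq0 : (0 : ℝ) < q := by exact_mod_cast hq
  rcases A.eq_empty_or_nonempty with rfl | hne
  · simp only [Finset.card_empty, Nat.cast_zero]
    positivity
  · set z₀ := A.min' hne with hz₀
    have hz₀A : z₀ ∈ A := A.min'_mem hne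
    have key : ∀ z ∈ A, ∃ e : ℕ, z - z₀ = (q : ℤ) * e ∧ (e : ℝ) ≤ L / q := by
      intro z hz
      obtain ⟨e, he⟩ := hmod z hz z₀ hz₀A
      have hle : z₀ ≤ z := A.min'_le z hz
      have he0 : 0 ≤ e := by
        by_contra hneg
        push Not at hneg
        have : (q : ℤ) * e < 0 := mul_neg_of_pos_of_neg (by exact_mod_cast hq) hneg
        omega
      obtain ⟨e', rfl⟩ := Int.eq_ofNat_of_zero_le he0
      refine ⟨e', he, ?_⟩
      rw [le_div_iff₀ hq0]
      have h1 := (h z hz).2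
      have h2 := (h z₀ hz₀A).1
      have h3 : (z : ℝ) - z₀ = q * e' := by exact_mod_cast he
      linarith
    have hcard : A.card ≤ (Finset.range (⌊L / q⌋₊ + 1)).card := by
      refine Finset.card_le_card_of_injOn (fun z => ((z - z₀) / (q : ℤ)).toNat) ?_ ?_
      · intro z hz
        obtain ⟨e, he, hle⟩ := key z hz
        show ((z - z₀) / (q : ℤ)).toNat ∈ ((Finset.range (⌊L / q⌋₊ + 1) : Finset ℕ) : Set ℕ)
        rw [he, Int.mul_ediv_cancel_left _ (by omega), Int.toNat_natCast, Finset.mem_coe,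
          Finset.mem_range, Nat.lt_succ_iff]
        exact Nat.le_floor hle
      · intro z hz w hw hzw
        obtain ⟨e, he, _⟩ := key z hz
        obtain ⟨e', he', _⟩ := key w hw
        have hzw' : ((z - z₀) / (q : ℤ)).toNat = ((w - z₀) / (q : ℤ)).toNat := hzw
        rw [he, he', Int.mul_ediv_cancel_left _ (by omega), Int.mul_ediv_cancel_left _ (by omega),
          Int.toNat_natCast, Int.toNat_natCast] at hzw'
        subst hzw'
        omega
    rw [Finset.card_range] at hcard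
    have h1 : (A.card : ℝ) ≤ ((⌊L / q⌋₊ + 1 : ℕ) : ℝ) := by exact_mod_cast hcard
    have h2 : (⌊L / q⌋₊ : ℝ) ≤ L / q := Nat.floor_le (by positivity)
    push_cast at h1
    linarith

lemma B_fib {α β : Type} [DecidableEq β] (s : Finset α) (f : α → β) (c : ℝ)
    (h : ∀ b ∈ s.image f, ((s.filter (fun a => f a = b)).card : ℝ) ≤ c) :
    (s.card : ℝ) ≤ c * (s.image f).card := by
  rw [Finset.card_eq_sum_card_image f s]
  push_cast
  calc ∑ b ∈ s.image f, ((s.filter (fun a => f a = b)).card : ℝ) ≤ ∑ b ∈ s.image f, c :=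
        Finset.sum_le_sum h
    _ = c * (s.image f).card := by rw [Finset.sum_const, nsmul_eq_mul, mul_comm]

theorem t_B : S_B := by
  classical
  intro n H q p t hn hq hqH hcop ht
  obtain ⟨k, rfl⟩ : ∃ k, n = k + 1 := ⟨n - 1, by omega⟩
  have hq0 : (0 : ℝ) < q := by exact_mod_cast hq
  set Bx : Finset (Fin (k + 1 + 1) → ℤ) :=
    Fintype.piFinset fun _ : Fin (k + 1 + 1) => Finset.Icc (-(H : ℤ)) H with hBx
  set Sf : Finset (Fin (k + 1 + 1) → ℤ) :=
    Bx.filter (fun a => |pval a ((p : ℝ) / (q : ℝ))| ≤ t) with hSf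
  have hS : {a ∈ box (k + 1) H | |pval a ((p : ℝ) / (q : ℝ))| ≤ t} = (Sf : Set _) := by
    ext a
    simp only [hSf, hBx, box, Set.mem_setOf_eq, Finset.coe_filter, Fintype.mem_piFinset,
      Finset.mem_Icc, abs_le]
  rw [hS]
  refine ⟨Finset.finite_toSet _, ?_⟩
  rw [Set.ncard_coe_finset]
  have hmem : ∀ a ∈ Sf, (∀ i, -(H : ℤ) ≤ a i ∧ a i ≤ H) ∧ |pval a ((p : ℝ) / (q : ℝ))| ≤ t := by
    intro a ha
    rw [hSf, Finset.mem_filter, hBx, Fintype.mem_piFinset] at ha
    exact ⟨fun i => Finset.mem_Icc.1 (ha.1 i), ha.2⟩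
  have hpv : ∀ a : Fin (k + 1 + 1) → ℤ, pval a ((p : ℝ) / (q : ℝ)) * q =
      ((a 0 * q + a 1 * p : ℤ) : ℝ) +
        (∑ i : Fin k, (a i.succ.succ : ℝ) * ((p : ℝ) / (q : ℝ)) ^ ((i : ℕ) + 2)) * q := by
    intro a
    unfold pval
    rw [Fin.sum_univ_succ, Fin.sum_univ_succ]
    simp only [Fin.val_zero, pow_zero, mul_one, Fin.val_succ, Fin.val_one, zero_add, pow_one,
      Fin.succ_zero_eq_one]
    push_cast
    have : (p : ℝ) / q * q = p := div_mul_cancel₀ _ hq0.ne'
    have h2 : (a 1 : ℝ) * ((p : ℝ) / q) * q = a 1 * p := by rw [mul_assoc, this]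
    rw [add_mul, add_mul, h2]
    ring
  have h3H : 2 * (H : ℝ) / q + 1 ≤ 3 * H / q := by
    have h1 : (q : ℝ) ≤ H := by exact_mod_cast hqH
    rw [div_add_one hq0.ne', div_le_div_iff_of_pos_right hq0]
    linarith
  have h3H0 : (0 : ℝ) ≤ 3 * H / q := by positivity
  -- fibres over the tail
  have hfib : ∀ b ∈ Sf.image (fun a : Fin (k + 1 + 1) → ℤ => fun i : Fin k => a i.succ.succ),
      ((Sf.filter (fun a => (fun i : Fin k => a i.succ.succ) = b)).card : ℝ) ≤
        (2 * t * q + 1) * (3 * H / q) := by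
    intro b _
    set Sb := Sf.filter (fun a => (fun i : Fin k => a i.succ.succ) = b) with hSb
    have hSb1 : ∀ a ∈ Sb, a ∈ Sf ∧ (fun i : Fin k => a i.succ.succ) = b := by
      intro a ha
      rw [hSb, Finset.mem_filter] at ha
      exact ha
    have h1 := B_fib Sb (fun a => a 0 * (q : ℤ) + a 1 * p) (3 * H / q) (by
      intro m _
      set Sm := Sb.filter (fun a => a 0 * (q : ℤ) + a 1 * p = m) with hSm
      have hSm1 : ∀ a ∈ Sm, a ∈ Sb ∧ a 0 * (q : ℤ) + a 1 * p = m := by
        intro a ha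
        rw [hSm, Finset.mem_filter] at ha
        exact ha
      have hinj : Set.InjOn (fun a : Fin (k + 1 + 1) → ℤ => a 1) (Sm : Set _) := by
        intro a ha a' ha' h
        have h4 := hSm1 a ha
        have h5 := hSm1 a' ha'
        have h6 := (hSb1 a h4.1).2
        have h7 := (hSb1 a' h5.1).2
        have h8 : a 1 = a' 1 := h
        have h9 : a 0 = a' 0 := by
          have h10 : a 0 * (q : ℤ) = a' 0 * (q : ℤ) := by
            have := h4.2.trans h5.2.symm
            rw [h8] at this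
            linarith
          exact mul_right_cancel₀ (by omega : (q : ℤ) ≠ 0) h10
        funext i
        refine Fin.cases h9 (fun j => ?_) i
        refine Fin.cases (by simpa using h8) (fun l => ?_) j
        exact congrFun (h6.trans h7.symm) l
      rw [← Finset.card_image_of_injOn hinj]
      refine (B_count _ q hq (-(H : ℝ)) (2 * H) (by positivity) ?_ ?_).trans h3H
      · intro z hz
        obtain ⟨a, ha, rfl⟩ := Finset.mem_image.1 hz
        have h4 := (hmem a (hSb1 a (hSm1 a ha).1).1).1 1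
        constructor
        · exact_mod_cast h4.1
        · have : ((a 1 : ℤ) : ℝ) ≤ H := by exact_mod_cast h4.2
          linarith
      · intro z hz w hw
        obtain ⟨a, ha, rfl⟩ := Finset.mem_image.1 hz
        obtain ⟨a', ha', rfl⟩ := Finset.mem_image.1 hw
        have h4 := (hSm1 a ha).2
        have h5 := (hSm1 a' ha').2
        have h6 : (q : ℤ) ∣ (a 1 - a' 1) * p := ⟨a' 0 - a 0, by linarith⟩
        exact hcop.symm.dvd_of_dvd_mul_right h6)
    refine h1.trans ?_
    rw [mul_comm (2 * t * q + 1)]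
    refine mul_le_mul_of_nonneg_left ?_ h3H0
    set r : ℝ := (∑ i : Fin k, (b i : ℝ) * ((p : ℝ) / (q : ℝ)) ^ ((i : ℕ) + 2)) * q with hr
    have h2 := B_count (Sb.image (fun a => a 0 * (q : ℤ) + a 1 * p)) 1 le_rfl (-r - t * q)
      (2 * t * q) (by positivity) (by
        intro z hz
        obtain ⟨a, ha, rfl⟩ := Finset.mem_image.1 hz
        have h4 := hmem a (hSb1 a ha).1
        have h5 := hpv a
        have h6 := (hSb1 a ha).2
        have h7 : (∑ i : Fin k, (a i.succ.succ : ℝ) * ((p : ℝ) / (q : ℝ)) ^ ((i : ℕ) + 2)) * q = r := by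
          rw [hr, ← h6]
        rw [h7] at h5
        have h8 := abs_le.1 h4.2
        have h9 : -t * q ≤ pval a ((p : ℝ) / (q : ℝ)) * q := mul_le_mul_of_nonneg_right h8.1 hq0.le
        have h10 : pval a ((p : ℝ) / (q : ℝ)) * q ≤ t * q := mul_le_mul_of_nonneg_right h8.2 hq0.le
        constructor
        · linarith
        · linarith) (by
        intro z _ w _
        simp)
    simpa using h2
  have hmain := B_fib Sf (fun a : Fin (k + 1 + 1) → ℤ => fun i : Fin k => a i.succ.succ) _ hfib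
  refine hmain.trans ?_
  have hcard : ((Sf.image (fun a : Fin (k + 1 + 1) → ℤ => fun i : Fin k => a i.succ.succ)).card : ℝ)
      ≤ (2 * H + 1) ^ k := by
    have h1 : (Sf.image (fun a : Fin (k + 1 + 1) → ℤ => fun i : Fin k => a i.succ.succ)) ⊆
        Fintype.piFinset fun _ : Fin k => Finset.Icc (-(H : ℤ)) H := by
      intro b hb
      obtain ⟨a, ha, rfl⟩ := Finset.mem_image.1 hb
      rw [Fintype.mem_piFinset]
      intro i
      exact Finset.mem_Icc.2 ((hmem a ha).1 _)
    have h2 := Finset.card_le_card h1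
    have h3 : (Fintype.piFinset fun _ : Fin k => Finset.Icc (-(H : ℤ)) H).card = (2 * H + 1) ^ k := by
      rw [Fintype.card_piFinset, Finset.prod_const, Finset.card_univ, Fintype.card_fin, Int.card_Icc]
      congr 1
      omega
    rw [h3] at h2
    exact_mod_cast h2
  have h0 : (0 : ℝ) ≤ (2 * t * q + 1) * (3 * H / q) := by positivity
  have := mul_le_mul_of_nonneg_left hcard h0
  simpa using this

end Pool.Agent.H812R4.LG
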