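import Pool.Agent.H812R4.LG.Defs

namespace Pool.Agent.H812R4.LG

theorem C_step (ε : ℝ) (hε : 0 < ε) (q : ℕ) (hq : 2 ≤ q) :
    1 / (((q + 1 : ℕ) : ℝ) * Real.log ((q + 1 : ℕ) : ℝ) ^ (1 + ε))
      ≤ (1 / ε) * (Real.log q ^ (-ε) - Real.log ((q + 1 : ℕ) : ℝ) ^ (-ε)) := by
  have hq1 : (1 : ℝ) < q := by exact_mod_cast (by omega : 1 < q)
  have hlt : (q : ℝ) < ((q + 1 : ℕ) : ℝ) := by push_cast; linarith
  obtain ⟨c, ⟨hc1, hc2⟩, hc⟩ := exists_hasDerivAt_eq_slope (fun x : ℝ => Real.log x ^ (-ε))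
    (fun x : ℝ => (1 / x) * (-ε) * Real.log x ^ (-ε - 1)) hlt
    (by
      apply ContinuousOn.rpow_const
      · exact Real.continuousOn_log.mono (by
          intro x hx
          simp only [Set.mem_compl_iff, Set.mem_singleton_iff]
          have := hx.1
          intro h0; linarith)
      · intro x hx
        left
        have h1 : 1 < x := lt_of_lt_of_le hq1 hx.1
        exact (Real.log_pos h1).ne')
    (by
      intro x hx
      have h1 : 1 < x := lt_trans hq1 hx.1
      have h := (Real.hasDerivAt_log (by linarith : x ≠ 0)).rpow_const (p := -ε)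
        (Or.inl (Real.log_pos h1).ne')
      simpa [one_div] using h)
  have hc0 : (0 : ℝ) < c := by linarith
  have hlc : 0 < Real.log c := Real.log_pos (by linarith)
  have hd : ((q + 1 : ℕ) : ℝ) - q = 1 := by push_cast; ring
  rw [hd, div_one] at hc
  have hx : Real.log q ^ (-ε) - Real.log ((q + 1 : ℕ) : ℝ) ^ (-ε)
      = ε * (1 / c * Real.log c ^ (-ε - 1)) := by
    have : Real.log ((q + 1 : ℕ) : ℝ) ^ (-ε) - Real.log q ^ (-ε)
        = (1 / c) * (-ε) * Real.log c ^ (-ε - 1) := hc.symm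
    linarith
  rw [hx, ← mul_assoc, one_div_mul_cancel hε.ne', one_mul]
  have hlc2 : Real.log c ≤ Real.log ((q + 1 : ℕ) : ℝ) := Real.log_le_log hc0 hc2.le
  have e1 : 1 / c * Real.log c ^ (-ε - 1) = 1 / (c * Real.log c ^ (1 + ε)) := by
    rw [show (-ε - 1) = -(1 + ε) by ring, Real.rpow_neg hlc.le]
    field_simp
  rw [e1]
  apply one_div_le_one_div_of_le
  · positivity
  · gcongr

theorem t_C : S_C := by
  intro ε hε
  refine ⟨1 / ε + 2, by positivity, fun P Q hP hPQ => ?_⟩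
  have hP1 : (1 : ℝ) < P := by exact_mod_cast (by omega : 1 < P)
  have hlP : 0 < Real.log P := Real.log_pos hP1
  have hind : ∀ Q : ℕ, P ≤ Q →
      ∑ q ∈ Finset.Icc P Q, 1 / ((q : ℝ) * Real.log q ^ (1 + ε))
        ≤ 1 / ((P : ℝ) * Real.log P ^ (1 + ε))
          + (1 / ε) * (Real.log P ^ (-ε) - Real.log Q ^ (-ε)) := by
    intro Q hQ
    induction Q, hQ using Nat.le_induction with
    | base => simp
    | succ Q hQ ih =>
      rw [Finset.sum_Icc_succ_top (by omega)]
      have := C_step ε hε Q (by omega)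
      linarith
  have h1 := hind Q hPQ
  have hlQ : 0 ≤ Real.log Q ^ (-ε) := Real.rpow_nonneg (Real.log_natCast_nonneg Q) _
  have h2 : 1 / ((P : ℝ) * Real.log P ^ (1 + ε)) ≤ 2 * Real.log P ^ (-ε) := by
    have e : Real.log P ^ (1 + ε) = Real.log P * Real.log P ^ ε := by
      rw [Real.rpow_add hlP, Real.rpow_one]
    rw [e, Real.rpow_neg hlP.le]
    have hr : 0 < Real.log P ^ ε := Real.rpow_pos_of_pos hlP _
    have h3 : 1 / 2 ≤ (P : ℝ) * Real.log P := by
      have hP2 : (2 : ℝ) ≤ P := by exact_mod_cast hP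
      have h4 : Real.log 2 ≤ Real.log P := Real.log_le_log (by norm_num) hP2
      have h5 := Real.log_two_gt_d9
      nlinarith
    rw [div_le_iff₀ (by positivity)]
    have : 2 * (Real.log P ^ ε)⁻¹ * (P * (Real.log P * Real.log P ^ ε))
        = 2 * (P * Real.log P) := by
      field_simp
    rw [this]
    linarith
  have h3 : (1 / ε) * (Real.log P ^ (-ε) - Real.log Q ^ (-ε)) ≤ (1 / ε) * Real.log P ^ (-ε) := by
    apply mul_le_mul_of_nonneg_left _ (by positivity)
    linarith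
  calc _ ≤ _ := h1
    _ ≤ 2 * Real.log P ^ (-ε) + (1 / ε) * Real.log P ^ (-ε) := add_le_add h2 h3
    _ = (1 / ε + 2) * Real.log P ^ (-ε) := by ring

end Pool.Agent.H812R4.LG
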