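import Pool.Agent.H812R4.LG.Defs

/-! Task D (helper353): one denominator. -/

open Filter Topology

namespace Pool.Agent.H812R4.LG

/-- the box as a finite set -/
noncomputable def D_boxF (n H : ℕ) : Finset (Fin (n + 1) → ℤ) :=
  Fintype.piFinset fun _ => Finset.Icc (-(H : ℤ)) H

theorem D_mem (n H : ℕ) (a : Fin (n + 1) → ℤ) : a ∈ D_boxF n H ↔ a ∈ box n H := by
  unfold D_boxF box
  rw [Fintype.mem_piFinset]
  constructor
  · intro h i
    have := Finset.mem_Icc.1 (h i)
    exact abs_le.2 this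
  · intro h i
    exact Finset.mem_Icc.2 (abs_le.1 (h i))

theorem D_card (n H : ℕ) : (D_boxF n H).card = (2 * H + 1) ^ (n + 1) := by
  unfold D_boxF
  rw [Fintype.card_piFinset]
  simp only [Int.card_Icc, Finset.prod_const, Finset.card_univ, Fintype.card_fin]
  congr 1
  omega

theorem t_D (hA : S_A) (hB : S_B) : S_D := by
  classical
  intro n R ε hn hR hε
  set K : ℝ := ((n : ℝ) + 1) ^ 2 * (R + 1) ^ n with hK
  have hK0 : 0 ≤ K := by
    rw [hK]
    have : (0 : ℝ) ≤ R + 1 := by linarith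
    positivity
  refine ⟨9 * (R + 1) * (2 * K + 1), by positivity, ?_⟩
  intro H q hq hqH
  have hfin : ∀ P : (Fin (n + 1) → ℤ) → Prop, {a ∈ box n H | P a} =
      (((D_boxF n H).filter P : Finset (Fin (n + 1) → ℤ)) : Set (Fin (n + 1) → ℤ)) := by
    intro P
    ext a
    rw [Finset.mem_coe, Finset.mem_filter, D_mem]
    rfl
  have hq' : (2 : ℝ) ≤ q := by exact_mod_cast hq
  have hH' : (2 : ℝ) ≤ H := by exact_mod_cast hq.trans hqH
  have hL : 0 < Real.log q := Real.log_pos (by linarith)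
  have hLp : 0 < Real.log q ^ (1 + ε) := Real.rpow_pos_of_pos hL _
  set u : ℝ := 1 / ((q : ℝ) * Real.log q ^ (1 + ε)) with hu
  set del : ℝ := 1 / ((q : ℝ) ^ 2 * Real.log q ^ (1 + ε)) with hdel
  have hu0 : 0 < u := by rw [hu]; positivity
  have hdel0 : 0 < del := by rw [hdel]; positivity
  have hud : del * q = u := by
    rw [hu, hdel]
    field_simp
  refine ⟨?_, ?_⟩
  · rw [hfin]
    exact Finset.finite_toSet _
  rw [hfin, Set.ncard_coe_finset]
  have hpow : (0 : ℝ) ≤ (2 * (H : ℝ) + 1) ^ (n - 1) := by positivity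
  by_cases hd : del ≤ 1
  · -- main case
    set m : ℤ := ⌊(R + 1) * (q : ℝ)⌋ with hm
    set Ps : Finset ℤ := (Finset.Icc (-m) m).filter fun p => IsCoprime p (q : ℤ) with hPs
    set t : ℝ := H * K * del with ht
    have ht0 : 0 ≤ t := by rw [ht]; positivity
    have hsub : (D_boxF n H).filter (fun a => near a R ε q) ⊆
        Ps.biUnion fun p => (D_boxF n H).filter fun a => |pval a ((p : ℝ) / q)| ≤ t := by
      intro a ha
      rw [Finset.mem_filter] at ha
      obtain ⟨ha1, x, hx1, hx2, p, hp1, hp2⟩ := ha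
      rw [Finset.mem_biUnion]
      have hp3 : |x - p / q| ≤ del := hp2
      have hxp : |x - (p : ℝ) / q| ≤ 1 := hp3.trans hd
      have hpq : |(p : ℝ) / q| ≤ R + 1 := by
        have h1 : (p : ℝ) / q = x - (x - (p : ℝ) / q) := by ring
        rw [h1]
        calc |x - (x - (p : ℝ) / q)| ≤ |x| + |x - (p : ℝ) / q| := abs_sub _ _
          _ ≤ R + 1 := by linarith
      have hpabs : |(p : ℝ)| ≤ (R + 1) * q := by
        rw [abs_div, abs_of_pos (by linarith : (0 : ℝ) < q), div_le_iff₀ (by linarith)] at hpq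
        exact hpq
      have hpm : |p| ≤ m := by
        rw [hm, Int.le_floor]
        push_cast
        exact hpabs
      refine ⟨p, ?_, ?_⟩
      · rw [hPs, Finset.mem_filter, Finset.mem_Icc]
        exact ⟨abs_le.1 hpm, hp1⟩
      · rw [Finset.mem_filter]
        refine ⟨ha1, ?_⟩
        have h2 := hA n H R hR a ((D_mem n H a).1 ha1) x ((p : ℝ) / q) hx1 hxp hx2
        refine h2.trans ?_
        have h3 : (0 : ℝ) ≤ H * ((n + 1) ^ 2 * (R + 1) ^ n) := by
          have : (0 : ℝ) ≤ H * K := by positivity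
          exact this
        calc (H : ℝ) * ((n + 1) ^ 2 * (R + 1) ^ n) * |x - (p : ℝ) / q|
            ≤ (H : ℝ) * ((n + 1) ^ 2 * (R + 1) ^ n) * del := mul_le_mul_of_nonneg_left hp3 h3
          _ = t := by rw [ht]
    set Bd : ℝ := (2 * t * q + 1) * (3 * H / q) * (2 * H + 1) ^ (n - 1) with hBd
    have hBd0 : 0 ≤ Bd := by rw [hBd]; positivity
    have hcard1 : (((D_boxF n H).filter fun a => near a R ε q).card : ℝ) ≤ (Ps.card : ℝ) * Bd := by
      have h1 := (Finset.card_le_card hsub).trans Finset.card_biUnion_le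
      have h2 : (((D_boxF n H).filter fun a => near a R ε q).card : ℝ) ≤
          ∑ p ∈ Ps, ((((D_boxF n H).filter fun a => |pval a ((p : ℝ) / q)| ≤ t).card : ℕ) : ℝ) := by
        exact_mod_cast h1
      refine h2.trans ?_
      have h3 : ∀ p ∈ Ps, ((((D_boxF n H).filter fun a => |pval a ((p : ℝ) / q)| ≤ t).card : ℕ) : ℝ) ≤
          Bd := by
        intro p hp
        have h4 := (hB n H q p t hn (by omega) hqH (Finset.mem_filter.1 hp).2 ht0).2
        rw [hfin, Set.ncard_coe_finset] at h4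
        exact h4
      calc ∑ p ∈ Ps, ((((D_boxF n H).filter fun a => |pval a ((p : ℝ) / q)| ≤ t).card : ℕ) : ℝ)
          ≤ ∑ p ∈ Ps, Bd := Finset.sum_le_sum h3
        _ = (Ps.card : ℝ) * Bd := by rw [Finset.sum_const, nsmul_eq_mul]
    have hPcard : (Ps.card : ℝ) ≤ 3 * (R + 1) * q := by
      have h1 : Ps.card ≤ (Finset.Icc (-m) m).card := Finset.card_filter_le _ _
      rw [Int.card_Icc] at h1
      have hm0 : 0 ≤ m := by
        rw [hm, Int.floor_nonneg]
        positivity
      have h2 : ((m + 1 - -m).toNat : ℤ) = 2 * m + 1 := by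
        rw [Int.toNat_of_nonneg (by omega)]
        ring
      have h3 : (Ps.card : ℤ) ≤ 2 * m + 1 := by
        rw [← h2]
        exact_mod_cast h1
      have h4 : (Ps.card : ℝ) ≤ 2 * m + 1 := by exact_mod_cast h3
      have h5 : (m : ℝ) ≤ (R + 1) * q := Int.floor_le _
      have h6 : (1 : ℝ) ≤ (R + 1) * q := by nlinarith
      nlinarith
    have htq : t * q = H * K * u := by
      rw [ht, ← hud]
      ring
    have hq0 : (0 : ℝ) < q := by linarith
    calc (((D_boxF n H).filter fun a => near a R ε q).card : ℝ) ≤ (Ps.card : ℝ) * Bd := hcard1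
      _ ≤ 3 * (R + 1) * q * Bd := mul_le_mul_of_nonneg_right hPcard hBd0
      _ = 9 * (R + 1) * (2 * (t * q) + 1) * (H * (2 * H + 1) ^ (n - 1)) := by
          rw [hBd]
          field_simp
          ring
      _ = 9 * (R + 1) * (2 * (H * K * u) + 1) * (H * (2 * H + 1) ^ (n - 1)) := by rw [htq]
      _ ≤ 9 * (R + 1) * ((2 * K + 1) * (H * u + 1)) * (H * (2 * H + 1) ^ (n - 1)) := by
          refine mul_le_mul_of_nonneg_right ?_ (by positivity)
          refine mul_le_mul_of_nonneg_left ?_ (by linarith)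
          have h7 : 0 ≤ (H : ℝ) * u := by positivity
          nlinarith
      _ = 9 * (R + 1) * (2 * K + 1) * (H * u + 1) * H * (2 * H + 1) ^ (n - 1) := by ring
  · -- trivial case
    have hu1 : 1 ≤ u := by
      rw [← hud]
      nlinarith [not_le.1 hd]
    have h1 : (((D_boxF n H).filter fun a => near a R ε q).card : ℝ) ≤
        (2 * (H : ℝ) + 1) ^ (n + 1) := by
      have h2 := Finset.card_filter_le (D_boxF n H) fun a => near a R ε q
      rw [D_card] at h2
      exact_mod_cast h2
    have h3 : (2 * (H : ℝ) + 1) ^ (n + 1) = (2 * (H : ℝ) + 1) ^ 2 * (2 * (H : ℝ) + 1) ^ (n - 1) := by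
      rw [← pow_add]
      congr 1
      omega
    rw [h3] at h1
    refine h1.trans (mul_le_mul_of_nonneg_right ?_ hpow)
    have h4 : (2 * (H : ℝ) + 1) ^ 2 ≤ 9 * H * H := by nlinarith
    have h5 : (9 : ℝ) ≤ 9 * (R + 1) * (2 * K + 1) := by nlinarith
    have h6 : (H : ℝ) ≤ H * u + 1 := by nlinarith
    calc (2 * (H : ℝ) + 1) ^ 2 ≤ 9 * H * H := h4
      _ ≤ 9 * (R + 1) * (2 * K + 1) * (H * u + 1) * H := by
          refine mul_le_mul_of_nonneg_right ?_ (by linarith)
          exact mul_le_mul h5 h6 (by linarith) (by linarith)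

end Pool.Agent.H812R4.LG
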