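import Pool.Agent.H812R4.LG.Defs

namespace Pool.Agent.H812R4.LG

theorem t_M (hD : S_D) (hC : S_C) : S_M := by
  intro n R ε hn hR hε
  obtain ⟨C1, hC1, h1⟩ := hD n R ε hn hR hε
  obtain ⟨C2, hC2, h2⟩ := hC ε hε
  refine ⟨C1 * (C2 + 1), by positivity, fun H P Q hP hPQ hQH => ?_⟩
  have hH : (1 : ℝ) ≤ H := by
    have : 1 ≤ H := by omega
    exact_mod_cast this
  have hH0 : (0 : ℝ) < H := by linarith
  have hsub : {a ∈ box n H | ∃ q : ℕ, P ≤ q ∧ q ≤ Q ∧ near a R ε q}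
      ⊆ ⋃ q ∈ Finset.Icc P Q, {a ∈ box n H | near a R ε q} := by
    rintro a ⟨ha, q, hq1, hq2, hq⟩
    simp only [Set.mem_iUnion, Finset.mem_Icc]
    exact ⟨q, ⟨hq1, hq2⟩, ha, hq⟩
  have hfin : ∀ q ∈ Finset.Icc P Q, {a ∈ box n H | near a R ε q}.Finite := by
    intro q hq
    rw [Finset.mem_Icc] at hq
    exact (h1 H q (by omega) (by omega)).1
  have hfinU : (⋃ q ∈ Finset.Icc P Q, {a ∈ box n H | near a R ε q}).Finite :=
    Set.Finite.biUnion (Finset.finite_toSet _) (fun q hq => hfin q (by simpa using hq))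
  have e1 : ({a ∈ box n H | ∃ q : ℕ, P ≤ q ∧ q ≤ Q ∧ near a R ε q}.ncard : ℝ)
      ≤ ∑ q ∈ Finset.Icc P Q, ({a ∈ box n H | near a R ε q}.ncard : ℝ) := by
    have t1 := Set.ncard_le_ncard hsub hfinU
    have t2 := Finset.set_ncard_biUnion_le (Finset.Icc P Q)
      (fun q => {a ∈ box n H | near a R ε q})
    exact_mod_cast t1.trans t2
  have hlogP : 0 < Real.log P := Real.log_pos (by exact_mod_cast (by omega : 1 < P))
  have hrp : 0 < Real.log P ^ (-ε) := Real.rpow_pos_of_pos hlogP _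
  have e2 : ∑ q ∈ Finset.Icc P Q, ({a ∈ box n H | near a R ε q}.ncard : ℝ)
      ≤ ∑ q ∈ Finset.Icc P Q,
        C1 * (H * (1 / ((q : ℝ) * Real.log q ^ (1 + ε))) + 1) * H * (2 * H + 1) ^ (n - 1) := by
    refine Finset.sum_le_sum fun q hq => ?_
    rw [Finset.mem_Icc] at hq
    exact (h1 H q (by omega) (by omega)).2
  have e3 : ∑ q ∈ Finset.Icc P Q,
        C1 * (H * (1 / ((q : ℝ) * Real.log q ^ (1 + ε))) + 1) * H * (2 * H + 1) ^ (n - 1)
      = C1 * (H * (∑ q ∈ Finset.Icc P Q, 1 / ((q : ℝ) * Real.log q ^ (1 + ε)))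
        + (Finset.Icc P Q).card) * H * (2 * H + 1) ^ (n - 1) := by
    rw [← Finset.sum_mul, ← Finset.sum_mul, ← Finset.mul_sum, Finset.sum_add_distrib,
      ← Finset.mul_sum, Finset.sum_const, nsmul_eq_mul, mul_one]
  have hcard : ((Finset.Icc P Q).card : ℝ) ≤ Q := by
    rw [Nat.card_Icc]
    exact_mod_cast (by omega : Q + 1 - P ≤ Q)
  have hS := h2 P Q hP hPQ
  have hpow : (0 : ℝ) ≤ (2 * H + 1) ^ (n - 1) := by positivity
  have e4 : C1 * (H * (∑ q ∈ Finset.Icc P Q, 1 / ((q : ℝ) * Real.log q ^ (1 + ε)))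
        + (Finset.Icc P Q).card) * H * (2 * H + 1) ^ (n - 1)
      ≤ C1 * (H * (C2 * Real.log P ^ (-ε)) + Q) * H * (2 * H + 1) ^ (n - 1) := by
    gcongr
  have e5 : C1 * (H * (C2 * Real.log P ^ (-ε)) + Q) * H * (2 * H + 1) ^ (n - 1)
      = C1 * (C2 * Real.log P ^ (-ε) + Q / H) * (H * H) * (2 * H + 1) ^ (n - 1) := by
    field_simp
  have hQ0 : (0 : ℝ) ≤ (Q : ℝ) / H := by positivity
  have e6 : C1 * (C2 * Real.log P ^ (-ε) + Q / H) * (H * H) * (2 * H + 1) ^ (n - 1)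
      ≤ C1 * ((C2 + 1) * (Real.log P ^ (-ε) + Q / H)) * ((2 * H + 1) * (2 * H + 1))
        * (2 * H + 1) ^ (n - 1) := by
    have a1 : C2 * Real.log P ^ (-ε) + Q / H ≤ (C2 + 1) * (Real.log P ^ (-ε) + Q / H) := by
      nlinarith [mul_nonneg hC2.le hQ0]
    have a2 : (H : ℝ) ≤ 2 * H + 1 := by linarith
    gcongr
  have hn2 : n + 1 = (n - 1) + 2 := by omega
  calc ({a ∈ box n H | ∃ q : ℕ, P ≤ q ∧ q ≤ Q ∧ near a R ε q}.ncard : ℝ)
      ≤ C1 * ((C2 + 1) * (Real.log P ^ (-ε) + Q / H)) * ((2 * H + 1) * (2 * H + 1))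
        * (2 * H + 1) ^ (n - 1) := by
        refine e1.trans (e2.trans ?_)
        rw [e3]
        refine e4.trans ?_
        rw [e5]
        exact e6
    _ = C1 * (C2 + 1) * (Real.log P ^ (-ε) + Q / H) * (2 * H + 1) ^ (n + 1) := by
        rw [hn2, pow_add]; ring

end Pool.Agent.H812R4.LG
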